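import Pool.Agent.N520.AN.Stm2

set_option autoImplicit false

open Set Filter Topology

namespace Pool.Agent.N661.AN2

open Pool.Agent.N520.AN

theorem t_bel (h : Pool.Agent.N520.AN.S2_SUB) : Pool.Agent.N520.AN.S2_BEL := by
  intro E _ _ _ q Λ hA g hh hg hhΛ hF hFh hne
  by_contra hcon
  have hfr : ∀ m : ℕ, ∃ᶠ j in atTop, ∃ x ∈ big hh, ‖x‖ = 1 ∧ ‖g j x‖ < 1 / ((m : ℝ) + 1) := by
    intro m
    have hpos : (0 : ℝ) < 1 / ((m : ℝ) + 1) := by positivity
    intro hev
    apply hcon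
    refine ⟨1 / ((m : ℝ) + 1), hpos, ?_⟩
    filter_upwards [hev] with j hj x hx
    by_contra hlt
    rw [not_le] at hlt
    have hx0 : x ≠ 0 := by
      rintro rfl
      simp at hlt
    have hn : 0 < ‖x‖ := norm_pos_iff.2 hx0
    apply hj
    refine ⟨‖x‖⁻¹ • x, (big hh).smul_mem _ hx, ?_, ?_⟩
    · rw [norm_smul, norm_inv, norm_norm, inv_mul_cancel₀ hn.ne']
    · rw [map_smul, norm_smul, norm_inv, norm_norm, inv_mul_lt_iff₀ hn, mul_comm]
      exact hlt
  obtain ⟨φ, hφ, hx⟩ := Filter.extraction_forall_of_frequently hfr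
  choose x hxm hx1 hx2 using hx
  obtain ⟨y, hy, ψ, hψ, hlim⟩ := (isCompact_sphere (0 : E) 1).tendsto_subseq (x := x)
    (fun m => by simpa using hx1 m)
  have hy1 : ‖y‖ = 1 := by simpa using hy
  have hyb : y ∈ big hh := by
    have hcl : IsClosed ((big hh : Submodule ℝ E) : Set E) := (big hh).closed_of_finiteDimensional
    exact hcl.mem_of_tendsto hlim (Eventually.of_forall fun m => hxm _)
  have hya : y ∈ att (inv g ∘ (φ ∘ ψ)) := by
    refine ⟨fun m => g (φ (ψ m)) (x (ψ m)), ?_, ?_⟩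
    · rw [tendsto_zero_iff_norm_tendsto_zero]
      have h0 : Tendsto (fun m : ℕ => 1 / ((m : ℝ) + 1)) atTop (𝓝 0) :=
        tendsto_one_div_add_atTop_nhds_zero_nat
      exact squeeze_zero (fun m => norm_nonneg _) (fun m => (hx2 (ψ m)).le)
        (h0.comp hψ.tendsto_atTop)
    · refine hlim.congr fun m => ?_
      simp [inv]
  have hsub := ((h E q Λ hA (inv g) (inv_mem' hg)).2.2 hF (φ ∘ ψ) (hφ.comp hψ)).1
  rw [hsub] at hya
  rcases hA.anti (inv g) hh (inv_mem' hg) hhΛ hF hFh with h1 | h1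
  · exact hne h1.symm
  · have : y ∈ att (inv g) ⊓ big hh := ⟨hya, hyb⟩
    rw [h1, Submodule.mem_bot] at this
    rw [this, norm_zero] at hy1
    exact zero_ne_one hy1

end Pool.Agent.N661.AN2
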